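import Pool.Agent.Helper53.UR.Goals

/-!
# PROJECT UR (MP_c578c8_lc): packet UR-FCS (after `Helper57/CTG/FCS.lean`)
-/

set_option autoImplicit false

namespace Pool.Agent.Helper83.UR

open Pool.Agent.Helper53.UR
open Pool.Agent.Helper53.CTG (De root Nt Et Eb Fb ev op runs toF dec runs_zero runs_succ_eq_some)
open Pool.Agent.Helper1.TE (NumMach cif codeB)
open Pool.Agent.Helper65.LinSpace (dig tab nrec ifz eq01 le01 lt01 capPow Ctx LS num)

variable {β : Type}

theorem acc_eq [Ctx β] (M : UM β) (x : Sta β) (n : ℕ)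
    (hn : x.mo = n) (h : n ≠ 3) : M.mach.acc x = 0 := by
  change eq01 x.mo 3 = 0
  rw [hn]
  exact if_neg h

theorem toF_zero (N q b : ℕ) : toF N q b 0 0 = fun _ => (0, 0) := by
  funext j
  simp [toF, dig]

theorem nx_ct [Ctx β] (M : UM β) (w : List Bool) (o : β) (γ : ℕ) (h : M.h o = 0) :
    M.mach.nx w (ctS o) γ = mainS o γ 0 0 0 (root (M.N o) (M.q o)) 0 0 0 := by
  have hg : M.gq (ctS o) = 1 := by
    change eq01 1 1 * eq01 (M.h o) 0 + eq01 1 2 * _ = 1
    rw [h]
    simp [eq01]
  change cif (γ * (1 - M.gq (ctS o))) (M.nextN (ctS o) _ γ) _ = _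
  rw [hg]
  change (if γ * (1 - 1) = 0 then _ else _) = _
  rw [if_pos (by simp)]
  change (if M.h o = 0 then _ else _) = _
  rw [if_pos h]
  rfl

theorem nx_end [Ctx β] (M : UM β) (w : List Bool) (o : β) (h : M.h o ≠ 0) (ho : M.out o ≠ 0) :
    M.mach.nx w (ctS o) 0 = accS := by
  change cif (0 * (1 - M.gq (ctS o))) (M.nextN (ctS o) _ 0) _ = _
  rw [Nat.zero_mul]
  change (if M.h o = 0 then _ else (if M.out o = 0 then rejS else accS)) = _
  rw [if_neg h, if_neg ho]

theorem tst_bit (M : UM β) (o : β) :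
    M.tst o (M.bit o) (ev (M.t o) (M.q o) (M.c o) (M.N o) 1 0) ≠ 0 := by
  change eq01 (M.bit o) (M.bit o) ≠ 0
  simp [eq01]

theorem bit_lt (M : UM β) (o : β) : M.bit o < 2 := by
  unfold UM.bit lt01
  split_ifs <;> omega

/-- Packet UR-FCS. -/
theorem gFCS : GoalFCS := by
  intro hACC hRD hBS hstep β _ M hM w
  have hinv : ∀ x, M.mach.Reach w x → M.Inv w x := by
    intro x hx
    unfold NumMach.Reach at hx
    induction hx with
    | refl => exact UM.Inv.m0 0 (Nat.zero_le _)
    | tail _ hbc ih =>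
      obtain ⟨γ, hγ, rfl⟩ := hbc
      exact hstep M hM w _ γ hγ ih
  refine ⟨hinv, ?_, ?_⟩
  · rintro ⟨x, hx, hacc⟩
    cases hinv x hx with
    | rej => exact absurd (acc_eq M _ 4 rfl (by decide)) hacc
    | m0 u hu => exact absurd (acc_eq M _ 0 rfl (by decide)) hacc
    | m1 i h => exact absurd (acc_eq M _ 1 rfl (by decide)) hacc
    | m2 i ρ u τ g D X S A o ho h hρ hτ hu hg hD hX hS hC =>
      exact absurd (acc_eq M _ 2 rfl (by decide)) hacc
    | m3 h => exact h
  · rintro ⟨T, hT, hT1, hT2⟩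
    have key : ∀ i ≤ T, M.mach.Reach w (ctS (M.orun (num w) i)) := by
      intro i
      induction i with
      | zero => intro _; exact hRD M w
      | succ i ih =>
        intro hi
        have hR0 := ih (by omega)
        have hh : M.h (M.orun (num w) i) = 0 := hT i (by omega)
        generalize ho : M.orun (num w) i = o at hR0 hh
        have hnext : M.orun (num w) (i + 1) = M.d o (M.bit o) := by
          rw [← ho]; rfl
        rw [hnext]
        have hR1 : M.mach.Reach w
            (mainS o (M.bit o) 0 0 0 (root (M.N o) (M.q o)) 0 0 0) :=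
          Relation.ReflTransGen.tail hR0 ⟨M.bit o, bit_lt M o, (nx_ct M w o _ hh).symm⟩
        obtain ⟨s', γ, hγ, hrun⟩ := ((hACC M hM o (M.bit o)).1).2 (tst_bit M o)
        have claim : ∀ (t : ℕ) (s : (ℕ → ℕ × ℕ) × ℕ),
            runs (M.opM o (M.bit o)) γ t (fun _ => (0, 0), 0) = some s →
            t ≤ 13 ^ Nt (M.N o) (M.q o) →
            (t < 13 ^ Nt (M.N o) (M.q o) → ∃ X S A, s = (toF (M.N o) (M.q o) (M.b o) X S, A) ∧
              X < (2 ^ Eb (M.b o)) ^ (3 * M.q o + 4) ∧
              S < (2 ^ Fb (M.N o) (M.q o) (M.b o)) ^ (3 * M.q o + 4) ∧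
              M.mach.Reach w
                (mainS o (M.bit o) 0 t 0 (root (M.N o) (M.q o)) X S A)) ∧
            (t = 13 ^ Nt (M.N o) (M.q o) → M.mach.Reach w (ctS (M.d o (M.bit o)))) := by
          intro t
          induction t with
          | zero =>
            intro s hs _
            rw [runs_zero, Option.some.injEq] at hs
            refine ⟨fun _ => ⟨0, 0, 0, ?_, by positivity, by positivity, hR1⟩, fun h0 => ?_⟩
            · rw [← hs, toF_zero]
            · have : 0 < 13 ^ Nt (M.N o) (M.q o) := by positivity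
              omega
          | succ t iht =>
            intro s hs ht
            obtain ⟨z, hz, hst⟩ := runs_succ_eq_some.1 hs
            obtain ⟨X, S, A, hzz, hX, hS, hR⟩ := (iht z hz (by omega)).1 (by omega)
            rw [hzz] at hz hst
            obtain ⟨g1, g2⟩ := hBS M hM w o (M.bit o) t (γ t) X S A s (by omega) (hγ t) hX hS
              ⟨γ, hγ, hz⟩ hR hst
            exact ⟨g2, g1⟩
        exact (claim _ _ hrun le_rfl).2 rfl
    have hend : M.mach.acc (accS : Sta β) ≠ 0 := by
      change eq01 3 3 ≠ 0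
      simp [eq01]
    exact ⟨accS, Relation.ReflTransGen.tail (key T le_rfl)
      ⟨0, by norm_num, (nx_end M w _ hT1 hT2).symm⟩, hend⟩

end Pool.Agent.Helper83.UR
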